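import Mathlib
import Pool.Agent.Lib.MP_45c2e2_co.Base

/-!
Bounds for the largest subset of the grid `{1, ..., N}^d` with no five coplanar points, with equal
exponents in dimensions three and four.
-/

set_option autoImplicit false

namespace Pool.Agent.Results.MP_45c2e2_co.GridBounds

open Pool.Agent.MP_45c2e2_co

/-- The largest number of points of a subset of the grid `{1, ..., N}^d` with no five distinct
points on a common 2-plane. -/
noncomputable def r (d N : ℕ) : ℕ :=
  sSup {m : ℕ | ∃ A : Finset (Fin d → ℝ), InGrid N A ∧ NoFiveCoplanar A ∧ A.card = m}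

/-- The upper bound for one set: fixing the last `d - 2` coordinates gives a 2-plane. -/
lemma card_le (d N : ℕ) (hd : 2 ≤ d) (A : Finset (Fin d → ℝ)) (hA : InGrid N A)
    (h5 : NoFiveCoplanar A) : A.card ≤ 4 * N ^ (d - 2) := by
  classical
  obtain ⟨e, rfl⟩ : ∃ e, d = e + 2 := ⟨d - 2, by omega⟩
  -- the projection to the last `e` coordinates
  let π : (Fin (e + 2) → ℝ) → (Fin e → ℝ) := fun x i => x i.succ.succ
  let G : Finset (Fin e → ℝ) :=
    Fintype.piFinset (fun _ => (Finset.Icc 1 N).image (fun k : ℕ => (k : ℝ)))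
  have hG : G.card = N ^ e := by
    rw [Fintype.card_piFinset]
    rw [Finset.prod_const, Finset.card_image_of_injective _ Nat.cast_injective, Nat.card_Icc]
    simp
  have hmaps : ∀ x ∈ A, π x ∈ G := by
    intro x hx
    rw [Fintype.mem_piFinset]
    intro i
    obtain ⟨k, k1, k2, k3⟩ := hA x hx i.succ.succ
    rw [Finset.mem_image]
    exact ⟨k, Finset.mem_Icc.2 ⟨k1, k2⟩, k3.symm⟩
  have hfib : ∀ y ∈ G, (A.filter (fun x => π x = y)).card ≤ 4 := by
    intro y _
    by_contra hcon
    obtain ⟨S, hS, hc⟩ := Finset.exists_subset_card_eq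
      (by omega : 5 ≤ (A.filter (fun x => π x = y)).card)
    refine h5 S (hS.trans (Finset.filter_subset _ _)) hc ?_
    rw [coplanar_iff']
    have hle : vectorSpan ℝ (S : Set (Fin (e + 2) → ℝ))
        ≤ Submodule.span ℝ {(Pi.single 0 1 : Fin (e + 2) → ℝ), Pi.single 1 1} := by
      rw [vectorSpan_def, Submodule.span_le]
      rintro _ ⟨x, hx, z, hz, rfl⟩
      have hx' := (Finset.mem_filter.1 (hS hx)).2
      have hz' := (Finset.mem_filter.1 (hS hz)).2
      rw [SetLike.mem_coe, Submodule.mem_span_pair]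
      refine ⟨x 0 - z 0, x 1 - z 1, ?_⟩
      ext i
      refine Fin.cases ?_ (fun i => Fin.cases ?_ (fun i => ?_) i) i
      · simp
      · simp
      · have h1 := congrFun hx' i
        have h2 := congrFun hz' i
        simp only [π] at h1 h2
        have h3 : (i.succ.succ : Fin (e + 2)) ≠ 0 := Fin.succ_ne_zero _
        have h4 : (i.succ.succ : Fin (e + 2)) ≠ 1 := by
          rw [← Fin.succ_zero_eq_one]
          exact (Fin.succ_injective _).ne (Fin.succ_ne_zero _)
        simp [h3, h4, h1, h2]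
    refine (Submodule.finrank_mono hle).trans ?_
    refine (finrank_span_le_card _).trans ?_
    rw [Set.toFinset_insert, Set.toFinset_singleton]
    exact Finset.card_le_two
  have h := Finset.card_le_mul_card_image_of_maps_to hmaps 4 hfib
  rw [hG] at h
  simpa using h

/-- For all `d ≥ 2` and `N ≥ 1`,
`(N / 2) ^ (⌊d / 4⌋ + ⌊(d + 1) / 4⌋) ≤ r_d(N) ≤ 4 N ^ (d - 2)`. -/
theorem result (d N : ℕ) (hd : 2 ≤ d) (hN : 1 ≤ N) :
    ((N : ℝ) / 2) ^ (d / 4 + (d + 1) / 4) ≤ (r d N : ℝ) ∧ r d N ≤ 4 * N ^ (d - 2) := by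
  have hbdd : BddAbove {m : ℕ | ∃ A : Finset (Fin d → ℝ), InGrid N A ∧ NoFiveCoplanar A ∧
      A.card = m} := by
    refine ⟨4 * N ^ (d - 2), ?_⟩
    rintro m ⟨A, hA, h5, rfl⟩
    exact card_le d N hd A hA h5
  constructor
  · obtain ⟨c, ⟨A, a1, -, a3, a4⟩, hc⟩ := good_all d N hN
    refine hc.trans ?_
    have : A.card ≤ r d N := le_csSup hbdd ⟨A, a1, a3, rfl⟩
    exact_mod_cast a4.trans this
  · refine csSup_le ⟨0, ∅, ?_, ?_, Finset.card_empty⟩ ?_
    · intro x hx
      simp at hx
    · intro S hS hc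
      rw [Finset.subset_empty] at hS
      rw [hS] at hc
      simp at hc
    · rintro m ⟨A, hA, h5, rfl⟩
      exact card_le d N hd A hA h5

end Pool.Agent.Results.MP_45c2e2_co.GridBounds
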