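import Mathlib
import Pool.Agent.Lib.MP_45c2e2_co.Gr.Exps

/-!
The largest subsets of the grids `{1, ..., N}^d` with no five coplanar points: the growth exponents
divided by the dimension converge to their supremum.
-/

set_option autoImplicit false

namespace Pool.Agent.Results.MP_45c2e2_co.GrowthExponents

open Filter Topology Pool.Agent.MP_45c2e2_co

/-- The largest number of points of a subset of the grid `{1, ..., N}^d` with no five distinct
points on a common 2-plane. -/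
noncomputable def r (d N : ℕ) : ℕ :=
  sSup {m : ℕ | ∃ A : Finset (Fin d → ℝ), InGrid N A ∧ NoFiveCoplanar A ∧ A.card = m}

/-- The growth exponent of `r_d`: the supremum of all `a` for which there is `c > 0` with
`r_d(N) ≥ c N ^ a` for all `N ≥ 1`. -/
noncomputable def expo (d : ℕ) : ℝ :=
  sSup {a : ℝ | ∃ c : ℝ, 0 < c ∧ ∀ N : ℕ, 1 ≤ N → c * (N : ℝ) ^ a ≤ (r d N : ℝ)}

lemma bddR (d N : ℕ) : BddAbove {m : ℕ | ∃ A : Finset (Fin d → ℝ), InGrid N A ∧
    NoFiveCoplanar A ∧ A.card = m} := by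
  refine ⟨N ^ d, ?_⟩
  rintro m ⟨A, hA, -, rfl⟩
  exact TT.card_grid d N A hA

lemma le_r (d N : ℕ) (A : Finset (Fin d → ℝ)) (h1 : InGrid N A) (h2 : NoFiveCoplanar A) :
    A.card ≤ r d N := le_csSup (bddR d N) ⟨A, h1, h2, rfl⟩

lemma exists_max (d N : ℕ) : ∃ A : Finset (Fin d → ℝ), InGrid N A ∧ NoFiveCoplanar A ∧
    A.card = r d N := by
  refine Nat.sSup_mem (s := {m : ℕ | ∃ A : Finset (Fin d → ℝ), InGrid N A ∧
    NoFiveCoplanar A ∧ A.card = m}) ⟨0, ∅, ?_, ?_, Finset.card_empty⟩ (bddR d N)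
  · intro x hx
    simp at hx
  · intro S hS hc
    rw [Finset.subset_empty] at hS
    rw [hS] at hc
    simp at hc

lemma r_mul (m n N : ℕ) : r m N * r n N ≤ 4 * r (m + n) N := by
  obtain ⟨A, a1, a2, a3⟩ := exists_max m N
  obtain ⟨B, b1, b2, b3⟩ := exists_max n N
  obtain ⟨A', a4, a5, a6⟩ := Gr.half_good A a2
  obtain ⟨B', b4, b5, b6⟩ := Gr.half_good B b2
  have hA' : NoFiveCoplanar A' := fun S hS => a2 S (hS.trans a4)
  have hB' : NoFiveCoplanar B' := fun S hS => b2 S (hS.trans b4)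
  have h1 := le_r (m + n) N (prodSet A' B')
    (inGrid_prodSet N A' B' (fun x hx => a1 x (a4 hx)) (fun x hx => b1 x (b4 hx)))
    (noFive_prodSet A' B' a5 b5 hA' hB')
  rw [card_prodSet] at h1
  rw [← a3, ← b3]
  calc A.card * B.card ≤ (2 * A'.card) * (2 * B'.card) := Nat.mul_le_mul a6 b6
    _ = 4 * (A'.card * B'.card) := by ring
    _ ≤ 4 * r (m + n) N := Nat.mul_le_mul_left 4 h1

lemma one_le_r (d N : ℕ) (hN : 1 ≤ N) : 1 ≤ r d N := by
  obtain ⟨A, a1, -, a3, a4⟩ := good_one d N hN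
  exact a4.trans (le_r d N A a1 a3)

lemma r_le (d N : ℕ) : r d N ≤ N ^ d := by
  obtain ⟨A, a1, -, a3⟩ := exists_max d N
  rw [← a3]
  exact TT.card_grid d N A a1

/-- The quotients `expo d / d` converge to a number `κ` with `2 / 3 ≤ κ ≤ 1`, which is also their
supremum: `expo d ≤ κ d` for every `d`. In particular the bound `r_d(N) ≥ N ^ (d - 100)` for all
large `N` fails in every dimension with `(1 - κ) d > 100`. -/
theorem result :
    ∃ κ : ℝ, 2 / 3 ≤ κ ∧ κ ≤ 1 ∧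
      Tendsto (fun d : ℕ => expo d / (d : ℝ)) atTop (𝓝 κ) ∧
      (∀ d : ℕ, expo d ≤ κ * (d : ℝ)) ∧
      ∀ d : ℕ, 100 < (1 - κ) * (d : ℝ) →
        ¬ ∃ N₀ : ℕ, ∀ N : ℕ, N₀ ≤ N → (N : ℝ) ^ ((d : ℝ) - 100) ≤ (r d N : ℝ) := by
  have hl : ∀ d : ℕ, 2 * (d : ℝ) / 3 - 62 ∈ Gr.Exps r d := by
    intro d
    obtain ⟨c, hc, h⟩ := TT.lower_all d
    refine ⟨c, hc, fun N hN => ?_⟩
    obtain ⟨A, a1, a2, a3⟩ := h N hN
    refine a3.trans ?_
    exact_mod_cast le_r d N A a1 a2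
  obtain ⟨κ, k1, k2, k3, k4⟩ := Gr.limit r one_le_r r_le r_mul hl
  refine ⟨κ, k1, k2, k3, k4, ?_⟩
  rintro d hd ⟨N₀, h⟩
  have h1 := le_csSup (Gr.bdd r r_le d) (Gr.ev_mem r one_le_r d _ N₀ h)
  have h2 := k4 d
  linarith

end Pool.Agent.Results.MP_45c2e2_co.GrowthExponents
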