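import Mathlib
import Pool.Agent.Lib.MP_45c2e2_co.TT.Final

/-!
A lower bound with exponent `2 d / 3 - O(1)` for the largest subset of the grid `{1, ..., N}^d` with
no five coplanar points.
-/

set_option autoImplicit false

namespace Pool.Agent.Results.MP_45c2e2_co.TwoThirds

open Pool.Agent.MP_45c2e2_co

/-- The largest number of points of a subset of the grid `{1, ..., N}^d` with no five distinct
points on a common 2-plane. -/
noncomputable def r (d N : ℕ) : ℕ :=
  sSup {m : ℕ | ∃ A : Finset (Fin d → ℝ), InGrid N A ∧ NoFiveCoplanar A ∧ A.card = m}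

/-- For every dimension `d` there is `c > 0` with `r_d(N) ≥ c N ^ (2 d / 3 - 62)` for all
`N ≥ 1`. -/
theorem result (d : ℕ) :
    ∃ c : ℝ, 0 < c ∧ ∀ N : ℕ, 1 ≤ N → c * (N : ℝ) ^ (2 * (d : ℝ) / 3 - 62) ≤ (r d N : ℝ) := by
  obtain ⟨c, hc, h⟩ := TT.lower_all d
  refine ⟨c, hc, fun N hN => ?_⟩
  obtain ⟨A, a1, a2, a3⟩ := h N hN
  refine a3.trans ?_
  have hbdd : BddAbove {m : ℕ | ∃ A : Finset (Fin d → ℝ), InGrid N A ∧ NoFiveCoplanar A ∧
      A.card = m} := by
    refine ⟨N ^ d, ?_⟩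
    rintro m ⟨A, hA, -, rfl⟩
    exact TT.card_grid d N A hA
  have : A.card ≤ r d N := le_csSup hbdd ⟨A, a1, a2, rfl⟩
  exact_mod_cast this

end Pool.Agent.Results.MP_45c2e2_co.TwoThirds
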